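import Pool.Agent.H93.BL.Targets

/-!
Module QUAD: convex quadrilaterals.
-/

namespace Pool.Agent.H22.BL.QUAD

open MeasureTheory Set Pool.Agent.H93.BL

/-- unit vectors with cross product zero have equal squares -/
theorem sq_eq_of_cr {a b : ℂ} (ha : ‖a‖ = 1) (hb : ‖b‖ = 1) (h : cr a b = 0) : b ^ 2 = a ^ 2 := by
  have h1 := decomp a b ha
  have h2 := ip_sq_add_cr_sq b a
  rw [cr_swap b a, h, ha, hb] at h2
  rw [h] at h1
  have h3 : ip b a ^ 2 = 1 := by linarith
  have h4 : ((ip b a : ℝ) : ℂ) ^ 2 = 1 := by exact_mod_cast h3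
  rw [h1]
  push_cast
  linear_combination (a ^ 2) * h4

/-- orthogonal unit vectors have opposite squares -/
theorem sq_eq_of_ip {a b : ℂ} (ha : ‖a‖ = 1) (hb : ‖b‖ = 1) (h : ip a b = 0) :
    b ^ 2 = -a ^ 2 := by
  have h1 := decomp a b ha
  have h2 := ip_sq_add_cr_sq a b
  rw [h, ha, hb] at h2
  rw [ip_comm b a, h] at h1
  have h3 : cr a b ^ 2 = 1 := by linarith
  have h4 : ((cr a b : ℝ) : ℂ) ^ 2 = 1 := by exact_mod_cast h3
  have h5 : Complex.I ^ 2 = -1 := Complex.I_sq
  rw [h1]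
  push_cast
  linear_combination (a ^ 2 * Complex.I ^ 2) * h4 + a ^ 2 * h5

/-- three unit vectors turning twice by the same angle -/
theorem sq_eq_mul {a f b : ℂ} (ha : ‖a‖ = 1) (hf : ‖f‖ = 1) (hb : ‖b‖ = 1)
    (h1 : 0 < cr a f) (h2 : 0 < cr f b) (h : ip a f = ip f b) : f ^ 2 = a * b := by
  have e1 := ip_sq_add_cr_sq a f
  have e2 := ip_sq_add_cr_sq f b
  rw [ha, hf] at e1
  rw [hb, hf] at e2
  have e3 : cr a f = cr f b := by
    have : cr a f ^ 2 = cr f b ^ 2 := by rw [h] at e1; linarith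
    exact (pow_left_inj₀ h1.le h2.le two_ne_zero).1 this
  have e4 : (starRingEnd ℂ) a * f = (starRingEnd ℂ) f * b := by
    apply Complex.ext
    · have a1 := ip_eq_re f a
      have a2 := ip_eq_re b f
      rw [mul_comm] at a1 a2
      rw [← a1, ← a2, ip_comm f a, ip_comm b f, h]
    · rw [← cr_eq_im, ← cr_eq_im, e3]
  have ca : a * (starRingEnd ℂ) a = 1 := by
    rw [Complex.mul_conj, Complex.normSq_eq_norm_sq, ha]; norm_num
  have cf : f * (starRingEnd ℂ) f = 1 := by
    rw [Complex.mul_conj, Complex.normSq_eq_norm_sq, hf]; norm_num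
  linear_combination (a * f) * e4 - f ^ 2 * ca + a * b * cf

theorem quad : T_C3 → T_C5 → T_QUAD := by
  intro hC3 hC5 P hq hc i hi
  have s1 : ∀ i : Fin 4, i + 1 + 1 = i + 2 := by decide
  have s2 : ∀ i : Fin 4, i + 2 + 1 = i + 3 := by decide
  have s3 : ∀ i : Fin 4, i + 3 + 1 = i := by decide
  have s4 : ∀ i j : Fin 4, j ∉ ({i} : Set (Fin 4)) → j = i + 1 ∨ j = i + 2 ∨ j = i + 3 := by
    intro i j hj
    have hj' : j ≠ i := hj
    revert i j
    decide
  have haf : 0 < cr (P.u (i + 1)) (P.u (i + 2)) := by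
    have := hc (i + 1); rwa [s1] at this
  have hfb : 0 < cr (P.u (i + 2)) (P.u (i + 3)) := by
    have := hc (i + 2); rwa [s2] at this
  have gra : P.Grazing {i} (i + 1) := hC3 (Fin 4) P {i} (i + 1) i rfl (Or.inr (hC5 P hq hc i))
  have grb : P.Grazing {i} (i + 3) := by
    refine hC3 (Fin 4) P {i} (i + 3) i rfl (Or.inl ?_)
    have := hC5 P hq hc (i + 3)
    rwa [s3] at this
  have na := P.norm_u (i + 1)
  have nf := P.norm_u (i + 2)
  have nb := P.norm_u (i + 3)
  have hcne : P.u (i + 2) ^ 2 ≠ 0 := pow_ne_zero _ (P.u_ne _)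
  have hcn : ‖P.u (i + 2) ^ 2‖ = 1 := by rw [norm_pow, nf, one_pow]
  rcases hi with hi | hi | hi | hi
  · -- killing
    have hval : ∀ x : ℂ, P.u (i + 3) - P.u (i + 1) + ((0 : ℝ) : ℂ) * (Complex.I * x) =
        P.u (i + 3) - P.u (i + 1) := by
      intro x; simp
    have va : ip (P.u (i + 3) - P.u (i + 1)) (P.n (i + 1)) =
        cr (P.u (i + 1)) (P.u (i + 3)) := by
      rw [P.ip_n, cr_sub_right, cr_self, sub_zero]
    have vb : ip (P.u (i + 3) - P.u (i + 1)) (P.n (i + 3)) =
        cr (P.u (i + 1)) (P.u (i + 3)) := by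
      rw [P.ip_n, cr_sub_right, cr_self, cr_swap (P.u (i + 3)), zero_sub, neg_neg]
    have vf : 0 < ip (P.u (i + 3) - P.u (i + 1)) (P.n (i + 2)) := by
      rw [P.ip_n, cr_sub_right, cr_swap (P.u (i + 2)) (P.u (i + 1))]
      linarith
    refine Polygon.Good.killing {i} (P.u (i + 3) - P.u (i + 1)) 0 ?_ ?_
    · intro j hj x _
      rw [hval]
      rcases s4 i j hj with rfl | rfl | rfl
      · rw [va]; exact hi
      · exact vf.le
      · rw [vb]; exact hi
    · refine Polygon.Good.rational _ ?_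
      have mid : ∀ j, ∃ x, x ∈ openSegment ℝ (P.p j) (P.q j) := fun j =>
        ⟨P.p j + ((P.len j / 2 : ℝ) : ℂ) * P.u j, (P.mem_openSegment_iff j _).2
          ⟨P.len j / 2, by linarith [P.len_pos j], by linarith [P.len_pos j], rfl⟩⟩
      have main : ∀ k, k ∉ ({i} : Set (Fin 4)) ∪ {j | ∃ x ∈ openSegment ℝ (P.p j) (P.q j),
          0 < ip (P.u (i + 3) - P.u (i + 1) + ((0 : ℝ) : ℂ) * (Complex.I * x)) (P.n j)} →
          P.u k ^ 2 = P.u (i + 1) ^ 2 := by
        intro k hk
        have hk1 : k ∉ ({i} : Set (Fin 4)) := fun h => hk (Or.inl h)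
        have hk2 : ¬ 0 < ip (P.u (i + 3) - P.u (i + 1)) (P.n k) := by
          intro h
          obtain ⟨x, hx⟩ := mid k
          exact hk (Or.inr ⟨x, hx, by rw [hval]; exact h⟩)
        rcases s4 i k hk1 with rfl | rfl | rfl
        · rfl
        · exact absurd vf hk2
        · rw [vb] at hk2
          exact sq_eq_of_cr na nb (le_antisymm (not_lt.1 hk2) hi)
      intro k hk l hl
      refine ⟨2, two_pos, ?_⟩
      rw [div_pow, main k hk, main l hl]
      exact div_self (pow_ne_zero _ (P.u_ne _))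
  · -- right angle at the first corner
    refine Polygon.Good.slanted {i} (P.u (i + 2) ^ 2) (P.u (i + 3) ^ 2 / P.u (i + 2) ^ 2) hcn ?_ ?_
    · rw [norm_div, hcn, norm_pow, nb]; norm_num
    · intro j hj
      rcases s4 i j hj with rfl | rfl | rfl
      · right; left
        rw [ip_comm] at hi
        exact sq_eq_of_ip nf na hi
      · left; rfl
      · right; right
        exact ⟨Or.inl (div_mul_cancel₀ _ hcne).symm, grb⟩
  · -- right angle at the second corner
    refine Polygon.Good.slanted {i} (P.u (i + 2) ^ 2) (P.u (i + 1) ^ 2 / P.u (i + 2) ^ 2) hcn ?_ ?_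
    · rw [norm_div, hcn, norm_pow, na]; norm_num
    · intro j hj
      rcases s4 i j hj with rfl | rfl | rfl
      · right; right
        exact ⟨Or.inl (div_mul_cancel₀ _ hcne).symm, gra⟩
      · left; rfl
      · right; left
        exact sq_eq_of_ip nf nb hi
  · -- isosceles
    refine Polygon.Good.slanted {i} (P.u (i + 2) ^ 2) (P.u (i + 1) ^ 2 / P.u (i + 2) ^ 2) hcn ?_ ?_
    · rw [norm_div, hcn, norm_pow, na]; norm_num
    · intro j hj
      rcases s4 i j hj with rfl | rfl | rfl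
      · right; right
        exact ⟨Or.inl (div_mul_cancel₀ _ hcne).symm, gra⟩
      · left; rfl
      · right; right
        refine ⟨Or.inr ?_, grb⟩
        have h1 := sq_eq_mul na nf nb haf hfb hi
        rw [div_mul_eq_mul_div, div_eq_iff hcne]
        linear_combination (-(P.u (i + 2) ^ 2 + P.u (i + 1) * P.u (i + 3))) * h1

end Pool.Agent.H22.BL.QUAD
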