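import Pool.Agent.H93.BL.Targets

/-!
Module RA: finitely many directions when the sides outside `E` are mutually rational.
-/

namespace Pool.Agent.H22.BL.RA

open MeasureTheory Set Pool.Agent.H93.BL

theorem common {ι : Type} [Finite ι] (P : Polygon ι) (E : Set ι)
    (h : ∀ i, i ∉ E → ∀ j, j ∉ E → ∃ m : ℕ, 0 < m ∧ (P.u i / P.u j) ^ m = 1) :
    ∃ m : ℕ, 0 < m ∧ ∀ i, i ∉ E → ∀ j, j ∉ E → (P.u i / P.u j) ^ m = 1 := by
  have := Fintype.ofFinite ι
  choose! g hg0 hg using h
  classical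
  let G : ι → ι → ℕ := fun i j => if g i j = 0 then 1 else g i j
  have hG : ∀ i j, 0 < G i j := by
    intro i j
    by_cases h0 : g i j = 0
    · simp [G, h0]
    · simp only [G, h0, if_false]
      exact Nat.pos_of_ne_zero h0
  refine ⟨∏ i, ∏ j, G i j, Finset.prod_pos fun i _ => Finset.prod_pos fun j _ => hG i j, ?_⟩
  intro i hi j hj
  have h1 : G i j = g i j := by
    have := hg0 i hi j hj
    simp only [G, this.ne', if_false]
  have h2 : g i j ∣ ∏ i, ∏ j, G i j := by
    rw [← h1]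
    exact (Finset.dvd_prod_of_mem (fun j => G i j) (Finset.mem_univ j)).trans
      (Finset.dvd_prod_of_mem (fun i => ∏ j, G i j) (Finset.mem_univ i))
  obtain ⟨k, hk⟩ := h2
  rw [hk, pow_mul, hg i hi j hj, one_pow]

theorem ra : T_RA := by
  intro ι _ P E h f hf
  obtain ⟨m, hm0, hm⟩ := common P E h
  set v0 := P.dir (f 0) with hv0
  set i0 := (f 0).1 with hi0
  have hi0E : i0 ∉ E := (hf 0).2
  let R : Set ℂ := {z | z ^ m = 1}
  have hR : R.Finite := by
    refine (Polynomial.nthRootsFinset m (1 : ℂ)).finite_toSet.subset fun z hz => ?_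
    exact (Polynomial.mem_nthRootsFinset hm0 _).2 hz
  let C : Set ℂ := (fun z => z * v0) '' R ∪
    (fun z => z * (P.u i0 ^ 2 * (starRingEnd ℂ) v0)) '' R
  have hC : C.Finite := (hR.image _).union (hR.image _)
  have hu0 := P.u_ne i0
  have hu1 := P.u_mul_conj i0
  have key : ∀ w ∈ C, ∀ j, j ∉ E → P.refl j w ∈ C := by
    rintro w hw j hj
    have hz' : ∀ z ∈ R, (P.u j / P.u i0) ^ 2 * (starRingEnd ℂ) z ∈ R := by
      intro z hz
      have hz1 : z ^ m = 1 := hz
      show ((P.u j / P.u i0) ^ 2 * (starRingEnd ℂ) z) ^ m = 1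
      rw [mul_pow, ← pow_mul, mul_comm 2 m, pow_mul, hm j hj i0 hi0E, one_pow, one_mul,
        ← map_pow, hz1, map_one]
    rcases hw with ⟨z, hz, rfl⟩ | ⟨z, hz, rfl⟩
    · right
      refine ⟨_, hz' z hz, ?_⟩
      simp only [Polygon.refl, map_mul]
      field_simp
    · left
      refine ⟨_, hz' z hz, ?_⟩
      simp only [Polygon.refl, map_mul, map_pow, Complex.conj_conj]
      have h2 : (starRingEnd ℂ) (P.u i0) = (P.u i0)⁻¹ := eq_inv_of_mul_eq_one_right hu1
      rw [h2]
      field_simp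
  have hstep : ∀ n, P.dir (f (n + 1)) = P.refl (f (n + 1)).1 (P.dir (f n)) := fun n =>
    (hf n).1.2.2.choose_spec.2.2.2
  have hall : ∀ n : ℤ, P.dir (f n) ∈ C := by
    intro n
    induction n using Int.induction_on with
    | zero =>
      left
      exact ⟨1, one_pow m, one_mul _⟩
    | succ n ih =>
      rw [hstep]
      exact key _ ih _ (hf _).2
    | pred n ih =>
      have h1 := hstep (-(n : ℤ) - 1)
      rw [sub_add_cancel] at h1
      have h2 : P.dir (f (-(n : ℤ) - 1)) = P.refl (f (-(n : ℤ))).1 (P.dir (f (-(n : ℤ)))) := by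
        rw [h1, P.refl_refl]
      rw [h2]
      exact key _ ih _ (hf _).2
  refine hC.subset ?_
  rintro _ ⟨n, rfl⟩
  exact hall n

end Pool.Agent.H22.BL.RA
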